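import Pool.Agent.GTO.StmtsA

/-!
Squad GTO (MP_122998_co), row CIR: lines through one point.
-/

set_option autoImplicit false

namespace Pool.Agent.GTO.H09

open Finset Pool.Agent.GTO
open scoped Classical Topology

variable {ι : Type} [Fintype ι]

lemma ip_smul_left (t : ℝ) (u v : V) : ip (t • u) v = t * ip u v := by
  simp only [ip, Pi.smul_apply, smul_eq_mul]
  ring

lemma ip_smul_right (t : ℝ) (u v : V) : ip u (t • v) = t * ip u v := by
  simp only [ip, Pi.smul_apply, smul_eq_mul]
  ring

lemma ip_add_right (u v w : V) : ip u (v + w) = ip u v + ip u w := by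
  simp only [ip, Pi.add_apply]
  ring

lemma ip_comm (u v : V) : ip u v = ip v u := by
  simp only [ip]
  ring

omit [Fintype ι] in
lemma ip_bv (a : ι → V) (σ : ι → Bool) (k : ι) (x : V) :
    ip (bv a σ k) x = sg (σ k) * ip (a k) x := by
  unfold bv
  exact ip_smul_left _ _ _

lemma mem_perp (w x : V) : x ∈ perp w ↔ ip w x = 0 := Iff.rfl

lemma cr_ne_zero_iff (u : V) : u ≠ 0 ↔ 0 < ip u u := by
  constructor
  · intro h
    by_contra hle
    apply h
    have h0 : ip u u = u 0 ^ 2 + u 1 ^ 2 + u 2 ^ 2 := by
      simp only [ip]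
      ring
    have h1 : u 0 ^ 2 + u 1 ^ 2 + u 2 ^ 2 ≤ 0 := by
      rw [← h0]
      exact not_lt.mp hle
    have e0 : u 0 = 0 := by nlinarith [sq_nonneg (u 0), sq_nonneg (u 1), sq_nonneg (u 2)]
    have e1 : u 1 = 0 := by nlinarith [sq_nonneg (u 0), sq_nonneg (u 1), sq_nonneg (u 2)]
    have e2 : u 2 = 0 := by nlinarith [sq_nonneg (u 0), sq_nonneg (u 1), sq_nonneg (u 2)]
    funext k
    fin_cases k
    · exact e0
    · exact e1
    · exact e2
  · intro h h0
    rw [h0] at h
    simp [ip] at h

/-- Lagrange identity. -/
lemma lagrange (u v : V) : ip (cr u v) (cr u v) = ip u u * ip v v - ip u v * ip u v := by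
  simp only [ip, cr, Matrix.cons_val_zero, Matrix.cons_val_one, Matrix.cons_val]
  ring

lemma dt_ip (u v w : V) : ip w (cr u v) = dt u v w := by
  simp only [ip, cr, dt, Matrix.cons_val_zero, Matrix.cons_val_one, Matrix.cons_val]
  ring

/-- The orthogonal complement of two vectors. -/
lemma line {u v x : V} (hc : cr u v ≠ 0) (h1 : ip u x = 0) (h2 : ip v x = 0) :
    ∃ t : ℝ, x = t • cr u v := by
  have hpos : 0 < ip (cr u v) (cr u v) := (cr_ne_zero_iff _).mp hc
  refine ⟨ip (cr u v) x / ip (cr u v) (cr u v), ?_⟩
  have key : ∀ k, ip (cr u v) (cr u v) * x k = ip (cr u v) x * cr u v k := by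
    intro k
    simp only [ip] at h1 h2
    fin_cases k
    · simp only [ip, cr, Matrix.cons_val_zero, Matrix.cons_val_one, Matrix.cons_val,
        Fin.zero_eta, Fin.isValue, Fin.mk_one, Fin.reduceFinMk]
      linear_combination ((u 0 * v 1 - u 1 * v 0) * v 1 - (u 2 * v 0 - u 0 * v 2) * v 2) * h1 -
        ((u 0 * v 1 - u 1 * v 0) * u 1 - (u 2 * v 0 - u 0 * v 2) * u 2) * h2
    · simp only [ip, cr, Matrix.cons_val_zero, Matrix.cons_val_one, Matrix.cons_val,
        Fin.zero_eta, Fin.isValue, Fin.mk_one, Fin.reduceFinMk]
      linear_combination ((u 1 * v 2 - u 2 * v 1) * v 2 - (u 0 * v 1 - u 1 * v 0) * v 0) * h1 -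
        ((u 1 * v 2 - u 2 * v 1) * u 2 - (u 0 * v 1 - u 1 * v 0) * u 0) * h2
    · simp only [ip, cr, Matrix.cons_val_zero, Matrix.cons_val_one, Matrix.cons_val,
        Fin.zero_eta, Fin.isValue, Fin.mk_one, Fin.reduceFinMk]
      linear_combination ((u 2 * v 0 - u 0 * v 2) * v 0 - (u 1 * v 2 - u 2 * v 1) * v 1) * h1 -
        ((u 2 * v 0 - u 0 * v 2) * u 0 - (u 1 * v 2 - u 2 * v 1) * u 1) * h2
  funext k
  have := key k
  rw [Pi.smul_apply, smul_eq_mul, div_mul_eq_mul_div, eq_div_iff hpos.ne']
  linarith

/-- A vector orthogonal to `u` and not to `v`. -/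
lemma exists_perp {u v : V} (hc : cr u v ≠ 0) : ∃ x ∈ perp u, ip v x ≠ 0 := by
  refine ⟨ip u u • v + (-(ip u v)) • u, ?_, ?_⟩
  · rw [mem_perp, ip_add_right, ip_smul_right, ip_smul_right]
    ring
  · rw [ip_add_right, ip_smul_right, ip_smul_right, ip_comm v u]
    have h := (cr_ne_zero_iff _).mp hc
    rw [lagrange] at h
    intro h0
    linarith

omit [Fintype ι] in
/-- Small perturbations. -/
lemma eps (p q : ι → ℝ) (s : Finset ι) (hp : ∀ k ∈ s, 0 < p k) :
    ∃ ε : ℝ, 0 < ε ∧ ∀ k ∈ s, 0 < p k + ε * q k := by
  induction s using Finset.induction_on with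
  | empty => exact ⟨1, one_pos, by simp⟩
  | insert j s hj ih =>
    obtain ⟨ε, hε, h⟩ := ih fun k hk => hp k (Finset.mem_insert_of_mem hk)
    have hpj := hp j (Finset.mem_insert_self j s)
    have hd : 0 < |q j| + 1 := by positivity
    refine ⟨min ε (p j / (|q j| + 1)), lt_min hε (div_pos hpj hd), ?_⟩
    intro k hk
    rcases Finset.mem_insert.mp hk with rfl | hk'
    · have h1 : min ε (p k / (|q k| + 1)) ≤ p k / (|q k| + 1) := min_le_right _ _
      have h0 : 0 < min ε (p k / (|q k| + 1)) := lt_min hε (div_pos hpj hd)
      have h2 : min ε (p k / (|q k| + 1)) * (|q k| + 1) ≤ p k := by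
        rw [le_div_iff₀ hd] at h1
        exact h1
      have h3 : -(min ε (p k / (|q k| + 1)) * |q k|) ≤ min ε (p k / (|q k| + 1)) * q k := by
        have := mul_le_mul_of_nonneg_left (neg_abs_le (q k)) h0.le
        linarith
      nlinarith
    · have h4 := h k hk'
      have hpk := hp k (Finset.mem_insert_of_mem hk')
      have h1 : min ε (p j / (|q j| + 1)) ≤ ε := min_le_left _ _
      have h0 : 0 < min ε (p j / (|q j| + 1)) := lt_min hε (div_pos hpj hd)
      rcases le_or_gt 0 (q k) with hq | hq
      · have := mul_nonneg h0.le hq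
        linarith
      · have := mul_le_mul_of_nonpos_right h1 hq.le
        linarith

lemma sg_mul_self (b : Bool) : sg b * sg b = 1 := by
  cases b <;> simp [sg]

lemma sg_not (b : Bool) : sg (!b) = -sg b := by
  cases b <;> simp [sg]

lemma sg_pos {b : Bool} {r : ℝ} (h : 0 < sg b * r) : b = decide (0 < r) := by
  cases b
  · have : ¬ 0 < r := by
      unfold sg at h
      simp only [Bool.false_eq_true, if_false] at h
      linarith
    simp [this]
  · have : 0 < r := by
      unfold sg at h
      simp only [if_true] at h
      linarith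
    simp [this]

lemma sg_decide {r : ℝ} (h : r ≠ 0) : 0 < sg (decide (0 < r)) * r := by
  by_cases hr : 0 < r
  · simp [sg, hr]
  · have : r < 0 := lt_of_le_of_ne (not_lt.mp hr) h
    simp [sg, hr, this]

/-- sign vector of `x` on `s` -/
noncomputable def sv (a : ι → V) (s : Finset ι) (x : V) : ι → Bool :=
  fun k => if k ∈ s then decide (0 < ip (a k) x) else false

omit [Fintype ι] in
lemma sv_unique {a : ι → V} {s : Finset ι} {x : V} {σ : ι → Bool} (h0 : ∀ i, i ∉ s → σ i = false)
    (h : ∀ i ∈ s, 0 < ip (bv a σ i) x) : σ = sv a s x := by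
  funext k
  unfold sv
  by_cases hk : k ∈ s
  · rw [if_pos hk]
    have := h k hk
    rw [ip_bv] at this
    exact sg_pos this
  · rw [if_neg hk]
    exact h0 k hk

omit [Fintype ι] in
lemma sv_spec {a : ι → V} {s : Finset ι} {x : V} (h : ∀ k ∈ s, ip (a k) x ≠ 0) :
    (∀ i, i ∉ s → sv a s x i = false) ∧ ∀ i ∈ s, 0 < ip (bv a (sv a s x) i) x := by
  constructor
  · intro i hi
    unfold sv
    rw [if_neg hi]
  · intro i hi
    rw [ip_bv]
    unfold sv
    rw [if_pos hi]
    exact sg_decide (h i hi)

lemma SV_empty (a : ι → V) (K : Submodule ℝ V) : (SV a K ∅).card = 1 := by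
  rw [Finset.card_eq_one]
  refine ⟨fun _ => false, ?_⟩
  ext σ
  unfold SV
  rw [Finset.mem_filter, Finset.mem_singleton]
  constructor
  · rintro ⟨_, h, _⟩
    funext k
    exact h k (by simp)
  · rintro rfl
    exact ⟨Finset.mem_univ _, fun _ _ => rfl, 0, K.zero_mem, by simp⟩

/-- The sign vectors on the line orthogonal to `a i` and `a j`. -/
lemma SV_line {a : ι → V} {i j : ι} (hc : cr (a i) (a j) ≠ 0) {s : Finset ι} (hs : s.Nonempty) :
    (SV a (perp (a i) ⊓ perp (a j)) s).card =
      if ∃ k ∈ s, dt (a i) (a j) (a k) = 0 then 0 else 2 := by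
  split_ifs with h
  · obtain ⟨k, hk, hd⟩ := h
    rw [Finset.card_eq_zero, Finset.eq_empty_iff_forall_notMem]
    intro σ hσ
    unfold SV at hσ
    rw [Finset.mem_filter] at hσ
    obtain ⟨_, _, x, hx, hpos⟩ := hσ
    obtain ⟨t, rfl⟩ := line hc hx.1 hx.2
    have := hpos k hk
    rw [ip_bv, ip_smul_right, dt_ip, hd] at this
    simp at this
  · push Not at h
    have hne : ∀ k ∈ s, ip (a k) (cr (a i) (a j)) ≠ 0 := by
      intro k hk
      rw [dt_ip]
      exact h k hk
    have hne' : ∀ k ∈ s, ip (a k) (-(cr (a i) (a j))) ≠ 0 := by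
      intro k hk
      have e : -(cr (a i) (a j)) = (-1 : ℝ) • cr (a i) (a j) := by simp
      rw [e, ip_smul_right]
      simp [hne k hk]
    have hmem : cr (a i) (a j) ∈ perp (a i) ⊓ perp (a j) := by
      constructor
      · change ip (a i) (cr (a i) (a j)) = 0
        rw [dt_ip]
        simp only [dt]
        ring
      · change ip (a j) (cr (a i) (a j)) = 0
        rw [dt_ip]
        simp only [dt]
        ring
    rw [Finset.card_eq_two]
    refine ⟨sv a s (cr (a i) (a j)), sv a s (-(cr (a i) (a j))), ?_, ?_⟩
    · obtain ⟨k, hk⟩ := hs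
      intro he
      have h1 := congrFun he k
      unfold sv at h1
      rw [if_pos hk, if_pos hk] at h1
      have e : ip (a k) (-(cr (a i) (a j))) = -ip (a k) (cr (a i) (a j)) := by
        have e : -(cr (a i) (a j)) = (-1 : ℝ) • cr (a i) (a j) := by simp
        rw [e, ip_smul_right]
        ring
      rw [e] at h1
      have h2 := hne k hk
      have h3 := (decide_eq_decide).mp h1
      rcases lt_or_gt_of_ne h2 with h4 | h4
      · have := h3.mpr (by linarith)
        linarith
      · have := h3.mp h4
        linarith
    · ext σ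
      rw [Finset.mem_insert, Finset.mem_singleton]
      unfold SV
      rw [Finset.mem_filter]
      constructor
      · rintro ⟨_, h0, x, hx, hpos⟩
        obtain ⟨t, rfl⟩ := line hc hx.1 hx.2
        have hscale : ∀ k ∈ s, 0 < t * (sg (σ k) * ip (a k) (cr (a i) (a j))) := by
          intro k hk
          have := hpos k hk
          rw [ip_bv, ip_smul_right] at this
          linarith
        rcases lt_trichotomy t 0 with ht | ht | ht
        · right
          refine sv_unique h0 fun k hk => ?_
          have e : -(cr (a i) (a j)) = (-1 : ℝ) • cr (a i) (a j) := by simp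
          rw [e, ip_bv, ip_smul_right]
          have := hscale k hk
          have h5 := neg_of_mul_pos_right this ht.le
          linarith
        · exfalso
          obtain ⟨k, hk⟩ := hs
          have := hscale k hk
          rw [ht] at this
          simp at this
        · left
          refine sv_unique h0 fun k hk => ?_
          rw [ip_bv]
          exact (mul_pos_iff_of_pos_left ht).mp (hscale k hk)
      · rintro (rfl | rfl)
        · obtain ⟨h1, h2⟩ := sv_spec hne
          exact ⟨Finset.mem_univ _, h1, _, hmem, h2⟩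
        · obtain ⟨h1, h2⟩ := sv_spec hne'
          exact ⟨Finset.mem_univ _, h1, _, Submodule.neg_mem _ hmem, h2⟩

/-- Number of sign vectors on the plane orthogonal to `a i`. -/
lemma SV_plane (hB : BasStmt) (hD : DelStmt) (a : ι → V) (hPI : PI a) (i : ι) (s : Finset ι) :
    i ∉ s → s.Nonempty → (SV a (perp (a i)) s).card = 2 * (s.image fun j => ln a i j).card := by
  obtain ⟨_, _, _, _, _, hB7⟩ := hB
  obtain ⟨hl1, hl2, _⟩ := hB7 ι a hPI
  induction s using Finset.induction_on with
  | empty => intro _ h; exact absurd h (by simp)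
  | insert j s hj ih =>
    intro hi _
    have hij : i ≠ j := by
      rintro rfl
      exact hi (Finset.mem_insert_self _ _)
    have his : i ∉ s := fun h => hi (Finset.mem_insert_of_mem h)
    rw [hD ι a (perp (a i)) s j hj (exists_perp (hPI i j hij))]
    rcases s.eq_empty_or_nonempty with rfl | hs
    · rw [SV_empty, SV_empty]
      simp
    · rw [ih his hs, SV_line (hPI i j hij) hs, Finset.image_insert]
      by_cases h : ∃ k ∈ s, dt (a i) (a j) (a k) = 0
      · rw [if_pos h]
        obtain ⟨k, hk, hd⟩ := h
        have hik : i ≠ k := by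
          rintro rfl
          exact his hk
        have hkl : k ∈ ln a i j := by
          unfold ln
          rw [Finset.mem_filter]
          exact ⟨Finset.mem_univ _, hd⟩
        have e := hl1 i j i k hij hik (hl2 i j hij).1 hkl
        have hm : ln a i j ∈ s.image fun j => ln a i j :=
          Finset.mem_image.mpr ⟨k, hk, e⟩
        rw [Finset.insert_eq_of_mem hm]
        rfl
      · rw [if_neg h]
        push Not at h
        have hm : ln a i j ∉ s.image fun j => ln a i j := by
          intro hm
          obtain ⟨k, hk, e⟩ := Finset.mem_image.mp hm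
          have hik : i ≠ k := by
            rintro rfl
            exact his hk
          have h1 := (hl2 i k hik).2
          have h2 : k ∈ ln a i j := by
            rw [← e]
            exact h1
          unfold ln at h2
          rw [Finset.mem_filter] at h2
          exact h k hk h2.2
        rw [Finset.card_insert_of_notMem hm]
        ring

lemma rr_eq (hB : BasStmt) (a : ι → V) (hPI : PI a) (i : ι) :
    ((univ.erase i).image fun j => ln a i j).card = rr a i := by
  obtain ⟨_, _, _, _, _, hB7⟩ := hB
  obtain ⟨hl1, hl2, _⟩ := hB7 ι a hPI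
  unfold rr
  congr 1
  ext ℓ
  rw [Finset.mem_image, Finset.mem_filter]
  unfold lns
  rw [Finset.mem_image]
  constructor
  · rintro ⟨j, hj, rfl⟩
    have hij : i ≠ j := (Finset.ne_of_mem_erase hj).symm
    refine ⟨⟨(i, j), ?_, rfl⟩, (hl2 i j hij).1⟩
    rw [Finset.mem_filter]
    exact ⟨Finset.mem_univ _, hij⟩
  · rintro ⟨⟨⟨k, l⟩, hkl, rfl⟩, hi⟩
    rw [Finset.mem_filter] at hkl
    have hkl' : k ≠ l := hkl.2
    by_cases hk : k = i
    · subst hk
      exact ⟨l, Finset.mem_erase.mpr ⟨hkl'.symm, Finset.mem_univ _⟩, rfl⟩
    · refine ⟨k, Finset.mem_erase.mpr ⟨hk, Finset.mem_univ _⟩, ?_⟩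
      exact hl1 k l i k hkl' (Ne.symm hk) hi (hl2 k l hkl').1

/-- Both sides of the plane orthogonal to `a i`. -/
lemma tope_both (a : ι → V) {i : ι} (ha : 0 < ip (a i) (a i)) {τ : ι → Bool}
    (hτ : τ ∈ SV a (perp (a i)) (univ.erase i)) (b : Bool) : Tope a (Function.update τ i b) := by
  unfold SV at hτ
  rw [Finset.mem_filter] at hτ
  obtain ⟨_, _, x, hx, hpos⟩ := hτ
  have hx' : ip (a i) x = 0 := hx
  obtain ⟨ε, hε, h⟩ := eps (fun k => ip (bv a τ k) x) (fun k => sg b * ip (bv a τ k) (a i))
    (univ.erase i) hpos
  refine ⟨x + (ε * sg b) • a i, fun k => ?_⟩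
  by_cases hk : k = i
  · subst hk
    rw [ip_bv, ip_add_right, ip_smul_right, hx', Function.update_self]
    have e : sg b * (0 + ε * sg b * ip (a k) (a k)) = ε * ip (a k) (a k) * (sg b * sg b) := by
      ring
    rw [e, sg_mul_self, mul_one]
    exact mul_pos hε ha
  · have h1 := h k (Finset.mem_erase.mpr ⟨hk, Finset.mem_univ _⟩)
    have e : bv a (Function.update τ i b) k = bv a τ k := by
      unfold bv
      rw [Function.update_of_ne hk]
    rw [e, ip_add_right, ip_smul_right]
    linarith

theorem cir (hB : BasStmt) (hD : DelStmt) : CirStmt := by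
  intro ι _ a hPI hcard
  refine ⟨fun i s => SV_plane hB hD a hPI i s, ?_⟩
  intro i
  have hnt : Nontrivial ι := Fintype.one_lt_card_iff_nontrivial.mp (by omega)
  obtain ⟨j, hj⟩ := exists_ne i
  have ha : 0 < ip (a i) (a i) := by
    rw [← cr_ne_zero_iff]
    intro h0
    apply hPI i j hj.symm
    rw [h0]
    funext k
    fin_cases k <;> simp [cr]
  have hne : (univ.erase i : Finset ι).Nonempty :=
    ⟨j, Finset.mem_erase.mpr ⟨hj, Finset.mem_univ _⟩⟩
  have hmain : (univ.filter fun σ => Tope a σ ∧ Tope a (flp σ i)) =
      ((SV a (perp (a i)) (univ.erase i)) ×ˢ (univ : Finset Bool)).image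
        fun p => Function.update p.1 i p.2 := by
    ext σ
    rw [Finset.mem_filter, Finset.mem_image]
    constructor
    · rintro ⟨_, ⟨x, hx⟩, ⟨y, hy⟩⟩
      refine ⟨(Function.update σ i false, σ i), ?_, ?_⟩
      · rw [Finset.mem_product]
        refine ⟨?_, Finset.mem_univ _⟩
        unfold SV
        rw [Finset.mem_filter]
        have hxi := hx i
        have hyi : 0 < -ip (bv a σ i) y := by
          have := hy i
          rw [ip_bv] at this
          unfold flp at this
          rw [Function.update_self, sg_not] at this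
          rw [ip_bv]
          linarith
        refine ⟨Finset.mem_univ _, ?_, (-ip (bv a σ i) y) • x + (ip (bv a σ i) x) • y, ?_, ?_⟩
        · intro k hk
          have hki : k = i := by
            by_contra hki
            exact hk (Finset.mem_erase.mpr ⟨hki, Finset.mem_univ _⟩)
          subst hki
          simp
        · rw [mem_perp]
          have h0 : ip (bv a σ i) ((-ip (bv a σ i) y) • x + (ip (bv a σ i) x) • y) = 0 := by
            rw [ip_add_right, ip_smul_right, ip_smul_right]
            ring
          rw [ip_bv] at h0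
          rcases mul_eq_zero.mp h0 with h1 | h1
          · exfalso
            have := sg_mul_self (σ i)
            rw [h1] at this
            simp at this
          · exact h1
        · intro k hk
          have hki : k ≠ i := Finset.ne_of_mem_erase hk
          have e : bv a (Function.update σ i false) k = bv a σ k := by
            unfold bv
            rw [Function.update_of_ne hki]
          have e' : bv a (flp σ i) k = bv a σ k := by
            unfold bv flp
            rw [Function.update_of_ne hki]
          have hyk := hy k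
          rw [e'] at hyk
          rw [e, ip_add_right, ip_smul_right, ip_smul_right]
          exact add_pos (mul_pos hyi (hx k)) (mul_pos hxi hyk)
      · funext k
        by_cases hki : k = i
        · subst hki
          simp
        · simp [hki]
    · rintro ⟨⟨τ, b⟩, hp, rfl⟩
      rw [Finset.mem_product] at hp
      refine ⟨Finset.mem_univ _, tope_both a ha hp.1 b, ?_⟩
      have e : flp (Function.update τ i b) i = Function.update τ i (!b) := by
        unfold flp
        rw [Function.update_self, Function.update_idem]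
      change Tope a (flp (Function.update τ i b) i)
      rw [e]
      exact tope_both a ha hp.1 (!b)
  rw [hmain, Finset.card_image_of_injOn, Finset.card_product, SV_plane hB hD a hPI i _ (by simp) hne,
    rr_eq hB a hPI i]
  · simp only [Finset.card_univ, Fintype.card_bool]
    ring
  · rintro ⟨τ, b⟩ h1 ⟨τ', b'⟩ h2 h
    simp only at h
    have hb : b = b' := by
      have := congrFun h i
      simpa using this
    have hτ : τ = τ' := by
      funext k
      by_cases hki : k = i
      · have z1 : τ i = false := by
          have := (Finset.mem_product.mp (Finset.mem_coe.mp h1)).1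
          unfold SV at this
          rw [Finset.mem_filter] at this
          exact this.2.1 i (by simp)
        have z2 : τ' i = false := by
          have := (Finset.mem_product.mp (Finset.mem_coe.mp h2)).1
          unfold SV at this
          rw [Finset.mem_filter] at this
          exact this.2.1 i (by simp)
        rw [hki, z1, z2]
      · have := congrFun h k
        rw [Function.update_of_ne hki, Function.update_of_ne hki] at this
        exact this
    rw [hb, hτ]

end Pool.Agent.GTO.H09
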